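import Mathlib.SetTheory.Cardinal.Pigeonhole
import Mathlib.Algebra.Notation.Lemmas
import Mathlib.Tactic.Monotonicity.Lemmas
import Mathlib.Combinatorics.SimpleGraph.Connectivity.Connected
import Mathlib.Order.CompletePartialOrder

-- ======== part 0: formerly Pool.Agent.MP_7bf93d_lc.Basic
section MrgPart0

/-!
Auxiliary lemmas for the highly connected partition relation.
-/

open Cardinal Set

universe u

namespace Pool.Agent.MP_7bf93d_lc

theorem exists_rec {I α : Type*} [LinearOrder I] [WellFoundedLT I]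
    (P : (i : I) → ((j : I) → j < i → α) → α → Prop) (h : ∀ i f, ∃ a, P i f a) :
    ∃ F : I → α, ∀ i, P i (fun j _ => F j) (F i) := by
  choose g hg using h
  let F : I → α := (wellFounded_lt (α := I)).fix g
  refine ⟨F, fun i => ?_⟩
  have : F i = g i (fun j _ => F j) := WellFounded.fix_eq _ _ _
  rw [this]; exact hg _ _

theorem mk_Iio_ord_lt {c : Cardinal.{u}} (i : c.ord.ToType) : #(Iio i) < c := by
  simpa using mk_Iio_lt i (by simp)

theorem small_iUnion {V ι : Type u} {lam : Cardinal.{u}} (hlam : ℵ₀ ≤ lam) (hι : #ι ≤ lam)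
    (s : ι → Set V) (hs : ∀ i, #(s i) ≤ lam) : #(⋃ i, s i : Set V) ≤ lam := by
  refine (mk_iUnion_le s).trans ?_
  have h1 : (⨆ i, #(s i)) ≤ lam := ciSup_le' hs
  calc #ι * (⨆ i, #(s i)) ≤ lam * lam := mul_le_mul' hι h1
    _ = lam := mul_eq_self hlam

theorem small_union {V : Type u} {lam : Cardinal.{u}} (hlam : ℵ₀ ≤ lam) {s t : Set V}
    (hs : #s ≤ lam) (ht : #t ≤ lam) : #(s ∪ t : Set V) ≤ lam := by
  refine (mk_union_le s t).trans ?_
  calc #s + #t ≤ lam + lam := add_le_add hs ht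
    _ = lam := add_eq_self hlam

theorem big_of_subset_union {V : Type u} {lam : Cardinal.{u}} (hlam : ℵ₀ ≤ lam) {s t r : Set V}
    (hs : lam < #s) (hr : #r ≤ lam) (h : s ⊆ t ∪ r) : lam < #t := by
  by_contra hcon
  push Not at hcon
  exact absurd ((mk_le_mk_of_subset h).trans (small_union hlam hcon hr)) (not_le.2 hs)

theorem exists_mem_notMem_of_lt {V : Type u} {s r : Set V} (h : #r < #s) : ∃ x ∈ s, x ∉ r := by
  by_contra hcon
  push Not at hcon
  exact absurd (mk_le_mk_of_subset (fun x hx => hcon x hx : s ⊆ r)) (not_le.2 h)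

theorem lt_iUnion_finset {V ι : Type u} {lam : Cardinal.{u}} (hlam : ℵ₀ ≤ lam) (hι : #ι < lam)
    (s : ι → Finset V) : #(⋃ i, (s i : Set V) : Set V) < lam := by
  rcases hlam.eq_or_lt with h | h
  · subst h
    have : Finite ι := lt_aleph0_iff_finite.1 hι
    exact lt_aleph0_iff_set_finite.2 (Set.finite_iUnion fun i => (s i).finite_toSet)
  · refine (mk_iUnion_le _).trans_lt ?_
    have h1 : (⨆ i, #(s i : Set V)) ≤ ℵ₀ :=
      ciSup_le' fun i => (lt_aleph0_iff_set_finite.2 (s i).finite_toSet).le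
    exact mul_lt_of_lt hlam hι (h1.trans_lt h)

/-- `x` and `y` are joined by a path of `G` all of whose edges lie in `D`. -/
def Conn {V : Type u} (G : SimpleGraph V) (D : Set V) (x y : V) : Prop :=
  Relation.ReflTransGen (fun a b => a ∈ D ∧ b ∈ D ∧ G.Adj a b) x y

theorem Conn.mono {V : Type u} {G : SimpleGraph V} {D D' : Set V} (h : D ⊆ D') {x y : V}
    (hc : Conn G D x y) : Conn G D' x y := by
  unfold Conn at *
  induction hc with
  | refl => exact Relation.ReflTransGen.refl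
  | tail _ hab ih => exact Relation.ReflTransGen.tail ih ⟨h hab.1, h hab.2.1, hab.2.2⟩

theorem Conn.symm {V : Type u} {G : SimpleGraph V} {D : Set V} {x y : V}
    (hc : Conn G D x y) : Conn G D y x := by
  unfold Conn at *
  induction hc with
  | refl => exact Relation.ReflTransGen.refl
  | tail _ hab ih => exact Relation.ReflTransGen.head ⟨hab.2.1, hab.1, hab.2.2.symm⟩ ih

theorem Conn.trans {V : Type u} {G : SimpleGraph V} {D : Set V} {x y z : V}
    (h1 : Conn G D x y) (h2 : Conn G D y z) : Conn G D x z :=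
  Relation.ReflTransGen.trans h1 h2

theorem Conn.single {V : Type u} {G : SimpleGraph V} {D : Set V} {x y : V}
    (hx : x ∈ D) (hy : y ∈ D) (h : G.Adj x y) : Conn G D x y :=
  Relation.ReflTransGen.single ⟨hx, hy, h⟩

theorem Conn.exists_finset {V : Type u} {G : SimpleGraph V} {D : Set V} {x y : V}
    (hc : Conn G D x y) : ∃ F : Finset V, (F : Set V) ⊆ D ∧ Conn G F x y := by
  classical
  unfold Conn at hc
  induction hc with
  | refl => exact ⟨∅, by simp, Relation.ReflTransGen.refl⟩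
  | @tail b c _ hab ih =>
    obtain ⟨F, hF, hFc⟩ := ih
    refine ⟨insert b (insert c F), ?_, ?_⟩
    · intro v hv
      simp only [Finset.coe_insert, mem_insert_iff] at hv
      rcases hv with rfl | rfl | hv
      exacts [hab.1, hab.2.1, hF hv]
    · refine (hFc.mono ?_).trans (Conn.single (by simp) (by simp) hab.2.2)
      intro v hv
      simp only [Finset.coe_insert, mem_insert_iff]
      exact Or.inr (Or.inr hv)

theorem connected_induce {V : Type u} {G : SimpleGraph V} {D : Set V} (hne : D.Nonempty)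
    (h : ∀ x ∈ D, ∀ y ∈ D, Conn G D x y) : (G.induce D).Connected := by
  have key : ∀ x y : V, Conn G D x y → ∀ (hx : x ∈ D) (hy : y ∈ D),
      (G.induce D).Reachable ⟨x, hx⟩ ⟨y, hy⟩ := by
    intro x y hc
    unfold Conn at hc
    induction hc with
    | refl => intro hx hy; rfl
    | @tail b c _ hab ih =>
      intro hx hy
      refine (ih hx hab.1).trans (SimpleGraph.Adj.reachable ?_)
      exact hab.2.2
  have : Nonempty D := hne.to_subtype
  exact ⟨fun a b => key a.1 b.1 (h _ a.2 _ b.2) a.2 b.2⟩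

/-- `B` stays connected after the removal of any set of fewer than `lam` vertices. -/
def HC {V : Type u} (G : SimpleGraph V) (lam : Cardinal.{u}) (B : Set V) : Prop :=
  ∀ Y : Set V, #Y < lam → ∀ x ∈ B \ Y, ∀ y ∈ B \ Y, Conn G (B \ Y) x y

theorem exists_paths {V : Type u} {G : SimpleGraph V} {lam : Cardinal.{u}} (hlam : ℵ₀ ≤ lam)
    {B : Set V} (hB : HC G lam B) {x y : V} (hx : x ∈ B) (hy : y ∈ B) :
    ∃ D : Set V, D ⊆ B ∧ #D ≤ lam ∧
      ∀ Y : Set V, #Y < lam → x ∉ Y → y ∉ Y → Conn G (D \ Y) x y := by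
  classical
  have hrec := exists_rec (I := lam.ord.ToType) (α := Finset V)
    (fun i f a => (a : Set V) ⊆ B ∧ (∀ j (h : j < i), ∀ v ∈ a, v ∈ f j h → v = x ∨ v = y) ∧
      Conn G a x y) (by
      intro i f
      let Y : Set V := (⋃ j : Iio i, (f j.1 j.2 : Set V)) \ {x, y}
      have hY : #Y < lam :=
        (mk_le_mk_of_subset sdiff_subset).trans_lt
          (lt_iUnion_finset hlam (mk_Iio_ord_lt i) _)
      have hxY : x ∉ Y := fun h => h.2 (by simp)
      have hyY : y ∉ Y := fun h => h.2 (by simp)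
      obtain ⟨F, hF, hFc⟩ := (hB Y hY x ⟨hx, hxY⟩ y ⟨hy, hyY⟩).exists_finset
      refine ⟨F, fun v hv => (hF hv).1, ?_, hFc⟩
      intro j h v hv hvf
      by_contra hcon
      refine (hF hv).2 ⟨mem_iUnion.2 ⟨⟨j, h⟩, hvf⟩, ?_⟩
      simpa using hcon)
  obtain ⟨F, hF⟩ := hrec
  refine ⟨⋃ i, (F i : Set V), iUnion_subset fun i => (hF i).1, ?_, ?_⟩
  · refine small_iUnion hlam (by simp) _ fun i => ?_
    exact (lt_aleph0_iff_set_finite.2 (F i).finite_toSet).le.trans hlam
  · intro Y hY hxY hyY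
    have : ∃ i, ∀ v ∈ F i, v ∉ Y := by
      by_contra hcon
      push Not at hcon
      choose v hv hvY using hcon
      have hinj : Function.Injective (fun i => (⟨v i, hvY i⟩ : Y)) := by
        intro i j hij
        have hij' : v i = v j := congrArg Subtype.val hij
        by_contra hne
        rcases lt_or_gt_of_ne hne with h | h
        · rcases (hF j).2.1 i h (v j) (hv j) (hij' ▸ hv i) with h' | h'
          · exact hxY (h' ▸ hvY j)
          · exact hyY (h' ▸ hvY j)
        · rcases (hF i).2.1 j h (v i) (hv i) (hij' ▸ hv j) with h' | h'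
          · exact hxY (h' ▸ hvY i)
          · exact hyY (h' ▸ hvY i)
      have := mk_le_of_injective hinj
      rw [mk_ord_toType] at this
      exact absurd this (not_le.2 hY)
    obtain ⟨i, hi⟩ := this
    refine (hF i).2.2.mono ?_
    intro v hv
    exact ⟨mem_iUnion.2 ⟨i, hv⟩, hi v hv⟩

theorem exists_HC_subset {V : Type u} {G : SimpleGraph V} {lam : Cardinal.{u}} (hlam : ℵ₀ ≤ lam)
    {B : Set V} (hBl : lam ≤ #B) (hB : HC G lam B) : ∃ A : Set V, #A = lam ∧ HC G lam A := by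
  have h1 : ∀ p : V × V, ∃ D : Set V, D ⊆ B ∧ #D ≤ lam ∧ (p.1 ∈ B → p.2 ∈ B →
      ∀ Y : Set V, #Y < lam → p.1 ∉ Y → p.2 ∉ Y → Conn G (D \ Y) p.1 p.2) := by
    intro p
    by_cases hp : p.1 ∈ B ∧ p.2 ∈ B
    · obtain ⟨D, h1, h2, h3⟩ := exists_paths hlam hB hp.1 hp.2
      exact ⟨D, h1, h2, fun _ _ => h3⟩
    · exact ⟨∅, by simp, by simp, fun ha hb => absurd (And.intro ha hb) hp⟩
  choose D hDB hDl hDc using h1
  obtain ⟨A0, hA0B, hA0⟩ := le_mk_iff_exists_subset.1 hBl
  let A : ℕ → Set V := fun k =>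
    Nat.rec A0 (fun _ (S : Set V) => S ∪ ⋃ p : (↥S × ↥S), D (p.1.1, p.2.1)) k
  have hAs : ∀ k, A (k + 1) = A k ∪ ⋃ p : (↥(A k) × ↥(A k)), D (p.1.1, p.2.1) := fun k => rfl
  have hAB : ∀ k, A k ⊆ B := by
    intro k
    induction k with
    | zero => exact hA0B
    | succ k ih => rw [hAs]; exact union_subset ih (iUnion_subset fun p => hDB _)
  have hAl : ∀ k : ℕ, #↥(A k) ≤ lam := by
    intro k
    induction k with
    | zero => exact hA0.le
    | succ k ih =>
      rw [hAs]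
      refine small_union hlam ih (small_iUnion hlam ?_ _ fun p => hDl _)
      rw [mk_prod, lift_id]
      calc #↥(A k) * #↥(A k) ≤ lam * lam := mul_le_mul' ih ih
        _ = lam := mul_eq_self hlam
  have hAm : Monotone A := monotone_nat_of_le_succ fun k => by rw [hAs]; exact subset_union_left
  refine ⟨⋃ k : ULift.{u} ℕ, A k.down, le_antisymm ?_ ?_, ?_⟩
  · exact small_iUnion hlam (by simpa using hlam) _ fun k => hAl _
  · rw [← hA0]
    exact mk_le_mk_of_subset fun v hv => mem_iUnion.2 ⟨⟨0⟩, hv⟩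
  · intro Y hY x hx y hy
    obtain ⟨⟨k⟩, hk⟩ := mem_iUnion.1 hx.1
    obtain ⟨⟨l⟩, hl⟩ := mem_iUnion.1 hy.1
    have hx' : x ∈ A (max k l) := hAm (le_max_left k l) hk
    have hy' : y ∈ A (max k l) := hAm (le_max_right k l) hl
    refine (hDc (x, y) (hAB _ hx') (hAB _ hy') Y hY hx.2 hy.2).mono ?_
    intro v hv
    refine ⟨mem_iUnion.2 ⟨⟨max k l + 1⟩, ?_⟩, hv.2⟩
    show v ∈ A (max k l + 1)
    rw [hAs]
    exact Or.inr (mem_iUnion.2 ⟨(⟨x, hx'⟩, ⟨y, hy'⟩), hv.1⟩)

end Pool.Agent.MP_7bf93d_lc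

end MrgPart0

-- ======== part 1: formerly Pool.Agent.MP_7bf93d_lc.Core
section MrgPart1

/-!
The two combinatorial lemmas: the labelling lemma and the dichotomy.
-/

open Cardinal Set

universe u

namespace Pool.Agent.MP_7bf93d_lc

/-- A separation of the set `T` of upper vertices. -/
def Sep {V : Type u} (lam : Cardinal.{u}) (N : V → Set V) (E T Y C : Set V) (a b : V) : Prop :=
  #Y ≤ lam ∧ a ∈ E ∧ b ∈ E ∧ lam < #(T ∩ N a : Set V) ∧ lam < #(T ∩ N b : Set V) ∧
    (∀ x, x ∉ Y → x ∈ C → #(T ∩ N x ∩ N b : Set V) ≤ lam) ∧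
    (∀ x, x ∉ Y → x ∉ C → #(T ∩ N x ∩ N a : Set V) ≤ lam) ∧
    (∀ x x', x ∉ Y → x' ∉ Y → lam < #(T ∩ N x ∩ N x' : Set V) → (x ∈ C ↔ x' ∈ C))

theorem labels {V Z : Type u} [Nonempty V] [LinearOrder Z] [WellFoundedLT Z]
    {lam : Cardinal.{u}} (hlam : ℵ₀ ≤ lam) (hZ : lam < #Z) (hZi : ∀ z : Z, #(Iio z) ≤ lam)
    (N : V → Set V) (S E : Set V) (hE : #E ≤ lam)
    (hsep : ∀ T : Set V, T ⊆ S → lam < #T → ∃ (Y C : Set V) (a b : V), Sep lam N E T Y C a b) :
    ∃ (l : V → V × V) (U : V → Set V),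
      (∀ x, lam < #(S ∩ N x : Set V) → #(U x) ≤ lam ∧ (l x).1 ∈ E ∧ (l x).2 ∈ E) ∧
      ∀ x x', lam < #(S ∩ N x ∩ N x' : Set V) → l x = l x' → x' ∈ U x := by
  classical
  choose! Y C a b hS using hsep
  let nxt : V → Set V → Set V := fun x T => if x ∈ C T then T \ N (b T) else T \ N (a T)
  have hnxt_sub : ∀ x T, nxt x T ⊆ T := by
    intro x T
    by_cases h : x ∈ C T
    · simp only [nxt, if_pos h]; exact sdiff_subset
    · simp only [nxt, if_neg h]; exact sdiff_subset
  have hrec : ∀ x : V, ∃ F : Z → Set V, ∀ z, F z = S ∩ ⋂ j, ⋂ (_ : j < z), nxt x (F j) := by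
    intro x
    exact exists_rec (I := Z) (α := Set V)
      (fun z f T => T = S ∩ ⋂ j, ⋂ (h : j < z), nxt x (f j h)) (fun z f => ⟨_, rfl⟩)
  choose F hF using hrec
  have f1 : ∀ x z, F x z ⊆ S := fun x z => by rw [hF]; exact inter_subset_left
  have f2 : ∀ x z j, j < z → F x z ⊆ nxt x (F x j) := by
    intro x z j hj v hv
    rw [hF] at hv
    exact mem_iInter₂.1 hv.2 j hj
  have f3 : ∀ x, lam < #(S ∩ N x : Set V) → ∀ z, (∀ j, j < z → x ∉ Y (F x j)) →
      #((S ∩ N x) \ F x z : Set V) ≤ lam := by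
    intro x hx z
    induction z using WellFoundedLT.induction with
    | ind z ih =>
      intro hz
      have hsub : (S ∩ N x) \ F x z ⊆ ⋃ j : Iio z, (S ∩ N x) \ nxt x (F x j.1) := by
        intro v hv
        have h2 := hv.2
        rw [hF] at h2
        have h3 : ¬ v ∈ ⋂ j, ⋂ (_ : j < z), nxt x (F x j) := fun h => h2 ⟨hv.1.1, h⟩
        rw [mem_iInter₂] at h3
        push Not at h3
        obtain ⟨j, hj, hv'⟩ := h3
        exact mem_iUnion.2 ⟨⟨j, hj⟩, hv.1, hv'⟩
      refine (mk_le_mk_of_subset hsub).trans (small_iUnion hlam (hZi z) _ ?_)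
      rintro ⟨j, hj⟩
      have hj' : j < z := hj
      have ih' := ih j hj' fun i hi => hz i (hi.trans hj')
      have hbig : lam < #(F x j) :=
        big_of_subset_union hlam hx ih' fun v hv => by
          by_cases h : v ∈ F x j
          · exact Or.inl h
          · exact Or.inr ⟨hv, h⟩
      have hsp := hS (F x j) (f1 x j) hbig
      by_cases h : x ∈ C (F x j)
      · have h5 := hsp.2.2.2.2.2.1 x (hz j hj') h
        refine (mk_le_mk_of_subset ?_).trans (small_union hlam ih' h5)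
        intro v hv
        by_cases hvF : v ∈ F x j
        · refine Or.inr ⟨⟨hvF, hv.1.2⟩, ?_⟩
          by_contra hcon
          refine hv.2 ?_
          simp only [nxt, if_pos h]
          exact ⟨hvF, hcon⟩
        · exact Or.inl ⟨hv.1, hvF⟩
      · have h5 := hsp.2.2.2.2.2.2.1 x (hz j hj') h
        refine (mk_le_mk_of_subset ?_).trans (small_union hlam ih' h5)
        intro v hv
        by_cases hvF : v ∈ F x j
        · refine Or.inr ⟨⟨hvF, hv.1.2⟩, ?_⟩
          by_contra hcon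
          refine hv.2 ?_
          simp only [nxt, if_neg h]
          exact ⟨hvF, hcon⟩
        · exact Or.inl ⟨hv.1, hvF⟩
  have f4 : ∀ x, lam < #(S ∩ N x : Set V) → ∀ z, (∀ j, j < z → x ∉ Y (F x j)) →
      Sep lam N E (F x z) (Y (F x z)) (C (F x z)) (a (F x z)) (b (F x z)) := by
    intro x hx z hz
    refine hS _ (f1 x z) (big_of_subset_union hlam hx (f3 x hx z hz) fun v hv => ?_)
    by_cases h : v ∈ F x z
    · exact Or.inl h
    · exact Or.inr ⟨hv, h⟩
  have f5 : ∀ x, lam < #(S ∩ N x : Set V) → ∀ z, (∀ j, j < z → x ∉ Y (F x j)) →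
      ∀ j, j < z → (a (F x j), b (F x j)) ≠ (a (F x z), b (F x z)) := by
    intro x hx z hz j hj heq
    have hsp := f4 x hx z hz
    have ha : a (F x j) = a (F x z) := congrArg Prod.fst heq
    have hb : b (F x j) = b (F x z) := congrArg Prod.snd heq
    have h0 : #(∅ : Set V) ≤ lam := by simp
    by_cases h : x ∈ C (F x j)
    · obtain ⟨v, hv, -⟩ := exists_mem_notMem_of_lt (h0.trans_lt hsp.2.2.2.2.1)
      have := f2 x z j hj hv.1
      simp only [nxt, if_pos h] at this
      exact this.2 (hb ▸ hv.2)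
    · obtain ⟨v, hv, -⟩ := exists_mem_notMem_of_lt (h0.trans_lt hsp.2.2.2.1)
      have := f2 x z j hj hv.1
      simp only [nxt, if_neg h] at this
      exact this.2 (ha ▸ hv.2)
  have f6 : ∀ x, lam < #(S ∩ N x : Set V) →
      ∃ z, x ∈ Y (F x z) ∧ ∀ j, j < z → x ∉ Y (F x j) := by
    intro x hx
    have hne : {z | x ∈ Y (F x z)}.Nonempty := by
      by_contra hcon
      have hall : ∀ z, x ∉ Y (F x z) := fun z hz => hcon ⟨z, hz⟩
      have hsp := fun z => f4 x hx z fun j _ => hall j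
      have hinj : Function.Injective
          (fun z : Z => ((⟨a (F x z), (hsp z).2.1⟩, ⟨b (F x z), (hsp z).2.2.1⟩) : ↥E × ↥E)) := by
        intro i j hij
        have h1 : a (F x i) = a (F x j) := congrArg (fun p : ↥E × ↥E => p.1.1) hij
        have h2 : b (F x i) = b (F x j) := congrArg (fun p : ↥E × ↥E => p.2.1) hij
        by_contra hne
        rcases lt_or_gt_of_ne hne with h | h
        · exact f5 x hx j (fun k _ => hall k) i h (by rw [h1, h2])
        · exact f5 x hx i (fun k _ => hall k) j h (by rw [h1, h2])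
      have h3 := mk_le_of_injective hinj
      rw [mk_prod, lift_id] at h3
      have h4 : #E * #E ≤ lam := by
        calc #E * #E ≤ lam * lam := mul_le_mul' hE hE
          _ = lam := mul_eq_self hlam
      exact absurd (h3.trans h4) (not_le.2 hZ)
    refine ⟨(wellFounded_lt (α := Z)).min _ hne, WellFounded.min_mem _ _ hne, ?_⟩
    intro j hj hxj
    exact WellFounded.not_lt_min (wellFounded_lt (α := Z)) {z | x ∈ Y (F x z)} hxj hj
  have hZne : Nonempty Z := by
    rw [← mk_ne_zero_iff]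
    exact (lt_of_le_of_lt (zero_le) hZ).ne'
  choose! stop hstop1 hstop2 using f6
  have f7 : ∀ x x', lam < #(S ∩ N x ∩ N x' : Set V) → ∀ z,
      (∀ j, j < z → x ∉ Y (F x j)) → (∀ j, j < z → x' ∉ Y (F x' j)) → F x z = F x' z := by
    intro x x' hxx z
    have hx : lam < #(S ∩ N x : Set V) := hxx.trans_le (mk_le_mk_of_subset inter_subset_left)
    induction z using WellFoundedLT.induction with
    | ind z ih =>
      intro h1 h2
      rw [hF x z, hF x' z]
      congr 1
      refine iInter_congr fun j => iInter_congr fun hj => ?_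
      have e := ih j hj (fun i hi => h1 i (hi.trans hj)) (fun i hi => h2 i (hi.trans hj))
      have hsp := f4 x hx j fun i hi => h1 i (hi.trans hj)
      have hsm := f3 x hx j fun i hi => h1 i (hi.trans hj)
      have hb : lam < #(F x j ∩ N x ∩ N x' : Set V) :=
        big_of_subset_union hlam hxx hsm fun v hv => by
          by_cases h : v ∈ F x j
          · exact Or.inl ⟨⟨h, hv.1.2⟩, hv.2⟩
          · exact Or.inr ⟨hv.1, h⟩
      have hiff := hsp.2.2.2.2.2.2.2 x x' (h1 j hj) (e ▸ h2 j hj) hb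
      rw [← e]
      by_cases h : x ∈ C (F x j)
      · simp only [nxt, if_pos h, if_pos (hiff.1 h)]
      · simp only [nxt, if_neg h, if_neg (fun h' => h (hiff.2 h'))]
  refine ⟨fun x => (a (F x (stop x)), b (F x (stop x))), fun x => Y (F x (stop x)), ?_, ?_⟩
  · intro x hx
    have hsp := f4 x hx (stop x) (hstop2 x hx)
    exact ⟨hsp.1, hsp.2.1, hsp.2.2.1⟩
  · intro x x' hxx hl
    have hx : lam < #(S ∩ N x : Set V) := hxx.trans_le (mk_le_mk_of_subset inter_subset_left)
    have hx' : lam < #(S ∩ N x' : Set V) :=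
      hxx.trans_le (mk_le_mk_of_subset fun v hv => ⟨hv.1.1, hv.2⟩)
    rcases lt_trichotomy (stop x) (stop x') with h | h | h
    · exfalso
      have e := f7 x x' hxx (stop x) (hstop2 x hx) fun j hj => hstop2 x' hx' j (hj.trans h)
      refine f5 x' hx' (stop x') (hstop2 x' hx') (stop x) h ?_
      rw [← e]; exact hl
    · have e := f7 x x' hxx (stop x) (hstop2 x hx) fun j hj => hstop2 x' hx' j (h ▸ hj)
      show x' ∈ Y (F x (stop x))
      rw [e, h]
      exact hstop1 x' hx'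
    · exfalso
      have e := f7 x x' hxx (stop x') (fun j hj => hstop2 x hx j (hj.trans h)) (hstop2 x' hx')
      refine f5 x hx (stop x) (hstop2 x hx) (stop x') h ?_
      rw [e]; exact hl.symm

theorem dichotomy {V : Type u} {lam : Cardinal.{u}} (hlam : ℵ₀ ≤ lam) (G : SimpleGraph V)
    (N : V → Set V) (hN : ∀ x d, d ∈ N x → G.Adj x d) (E T : Set V) (hE : #E ≤ lam)
    (hT : lam < #T) (hTE : ∀ d ∈ T, lam ≤ #{x | x ∈ E ∧ d ∈ N x}) :
    (∃ (Y C : Set V) (a b : V), Sep lam N E T Y C a b) ∨ ∃ B : Set V, lam ≤ #B ∧ HC G lam B := by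
  classical
  let r : Set V → V → V → Prop := fun Y x x' =>
    x ∉ Y ∧ x' ∉ Y ∧ lam < #(T ∩ N x ∩ N x' : Set V)
  have hr : ∀ Y x x', r Y x x' → r Y x' x := by
    intro Y x x' h
    refine ⟨h.2.1, h.1, ?_⟩
    rw [inter_right_comm]
    exact h.2.2
  by_cases H : ∀ Y : Set V, #Y < lam → ∀ a b, a ∈ E → b ∈ E → lam < #(T ∩ N a : Set V) →
      lam < #(T ∩ N b : Set V) → a ∉ Y → b ∉ Y → Relation.ReflTransGen (r Y) a b
  · right
    let Bad : Set V := ⋃ x : {x | x ∈ E ∧ #(T ∩ N x : Set V) ≤ lam}, T ∩ N x.1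
    have hBad : #Bad ≤ lam :=
      small_iUnion hlam ((mk_le_mk_of_subset fun x hx => hx.1).trans hE) _ fun x => x.2.2
    let W : Set V := {x | lam < #(T ∩ N x : Set V)}
    have hT' : lam < #(T \ Bad : Set V) := big_of_subset_union hlam hT hBad fun v hv => by
      by_cases h : v ∈ Bad
      · exact Or.inr h
      · exact Or.inl ⟨hv, h⟩
    refine ⟨W ∪ (T \ Bad), hT'.le.trans (mk_le_mk_of_subset subset_union_right), ?_⟩
    intro Y hY
    have hBY : #(Bad ∪ Y : Set V) ≤ lam := small_union hlam hBad hY.le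
    have step1 : ∀ x x', r Y x x' → Conn G ((W ∪ (T \ Bad)) \ Y) x x' := by
      intro x x' h
      obtain ⟨d, hd, hd'⟩ := exists_mem_notMem_of_lt (hBY.trans_lt h.2.2)
      have hdD : d ∈ (W ∪ (T \ Bad)) \ Y :=
        ⟨Or.inr ⟨hd.1.1, fun h' => hd' (Or.inl h')⟩, fun h' => hd' (Or.inr h')⟩
      have hxW : x ∈ W := h.2.2.trans_le (mk_le_mk_of_subset inter_subset_left)
      have hxW' : x' ∈ W := h.2.2.trans_le (mk_le_mk_of_subset fun v hv => ⟨hv.1.1, hv.2⟩)
      have hxD : x ∈ (W ∪ (T \ Bad)) \ Y := ⟨Or.inl hxW, h.1⟩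
      have hxD' : x' ∈ (W ∪ (T \ Bad)) \ Y := ⟨Or.inl hxW', h.2.1⟩
      exact (Conn.single hxD hdD (hN _ _ hd.1.2)).trans
        (Conn.single hdD hxD' (hN _ _ hd.2).symm)
    have step2 : ∀ x x', Relation.ReflTransGen (r Y) x x' →
        Conn G ((W ∪ (T \ Bad)) \ Y) x x' := by
      intro x x' h
      induction h with
      | refl => exact Relation.ReflTransGen.refl
      | tail _ hab ih => exact ih.trans (step1 _ _ hab)
    have step3 : ∀ d ∈ T \ Bad, d ∉ Y → ∃ x, x ∈ E ∧ x ∈ W ∧ x ∉ Y ∧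
        Conn G ((W ∪ (T \ Bad)) \ Y) d x := by
      intro d hd hdY
      obtain ⟨x, hx, hxY⟩ := exists_mem_notMem_of_lt (hY.trans_le (hTE d hd.1))
      have hxW : x ∈ W := by
        by_contra hcon
        have hcon' : #(T ∩ N x : Set V) ≤ lam := not_lt.1 hcon
        exact hd.2 (mem_iUnion.2 ⟨⟨x, hx.1, hcon'⟩, hd.1, hx.2⟩)
      exact ⟨x, hx.1, hxW, hxY,
        Conn.single ⟨Or.inr hd, hdY⟩ ⟨Or.inl hxW, hxY⟩ (hN _ _ hx.2).symm⟩
    have step4 : ∀ v ∈ (W ∪ (T \ Bad)) \ Y, ∃ x, x ∈ E ∧ x ∈ W ∧ x ∉ Y ∧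
        Conn G ((W ∪ (T \ Bad)) \ Y) v x := by
      intro v hv
      rcases hv.1 with h | h
      · obtain ⟨d, hd, hd'⟩ := exists_mem_notMem_of_lt (hBY.trans_lt h)
        have hdT : d ∈ T \ Bad := ⟨hd.1, fun h' => hd' (Or.inl h')⟩
        have hdY : d ∉ Y := fun h' => hd' (Or.inr h')
        obtain ⟨x, h1, h2, h3, h4⟩ := step3 d hdT hdY
        exact ⟨x, h1, h2, h3, (Conn.single hv ⟨Or.inr hdT, hdY⟩ (hN _ _ hd.2)).trans h4⟩
      · exact step3 v h hv.2
    intro x hx y hy
    obtain ⟨a, h1, h2, h3, h4⟩ := step4 x hx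
    obtain ⟨b, h1', h2', h3', h4'⟩ := step4 y hy
    exact (h4.trans (step2 a b (H Y hY a b h1 h1' h2 h2' h3 h3'))).trans h4'.symm
  · left
    push Not at H
    obtain ⟨Y, hY, a, b, ha, hb, haT, hbT, haY, hbY, hab⟩ := H
    refine ⟨Y, {x | Relation.ReflTransGen (r Y) a x}, a, b, hY.le, ha, hb, haT, hbT, ?_, ?_, ?_⟩
    · intro x hxY hx
      by_contra hcon
      exact hab (Relation.ReflTransGen.tail hx ⟨hxY, hbY, not_le.1 hcon⟩)
    · intro x hxY hx
      by_contra hcon
      exact hx (Relation.ReflTransGen.single (hr Y x a ⟨hxY, haY, not_le.1 hcon⟩))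
    · intro x x' hx hx' h
      exact ⟨fun h1 => Relation.ReflTransGen.tail h1 ⟨hx, hx', h⟩,
        fun h1 => Relation.ReflTransGen.tail h1 (hr Y x x' ⟨hx, hx', h⟩)⟩

end Pool.Agent.MP_7bf93d_lc

end MrgPart1

-- ======== part 2: formerly Pool.Agent.MP_7bf93d_lc.Main
section MrgPart2

/-!
The pressing down step and the final counting argument.
-/

open Cardinal Set

universe u

namespace Pool.Agent.MP_7bf93d_lc

theorem small_Iic {V : Type u} [LinearOrder V] {lam : Cardinal.{u}} (hlam : ℵ₀ ≤ lam)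
    (hVi : ∀ v : V, #(Iio v) ≤ lam) (v : V) : #(Iic v) ≤ lam := by
  rw [← Iio_union_right]
  exact small_union hlam (hVi v) (by simpa using one_le_aleph0.trans hlam)

theorem exists_strict_bound {V : Type u} [LinearOrder V] {lam : Cardinal.{u}} (hlam : ℵ₀ ≤ lam)
    (hV : lam < #V) (hVi : ∀ v : V, #(Iio v) ≤ lam) {s : Set V} (hs : #s ≤ lam) :
    ∃ v, ∀ x ∈ s, x < v := by
  by_contra hcon
  push Not at hcon
  have h1 : (univ : Set V) ⊆ ⋃ x : s, Iic x.1 := by
    intro v _
    obtain ⟨x, hx, hvx⟩ := hcon v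
    exact mem_iUnion.2 ⟨⟨x, hx⟩, hvx⟩
  have h2 := (mk_le_mk_of_subset h1).trans
    (small_iUnion hlam hs _ fun x => small_Iic hlam hVi x.1)
  rw [mk_univ] at h2
  exact absurd h2 (not_le.2 hV)

theorem exists_bound_ord {C : Type u} {lam : Cardinal.{u}} (hC : #C < lam.ord.cof)
    (w : C → lam.ord.ToType) : ∃ i, ∀ n, w n < i := by
  have h : ¬ IsCofinal (range w) := by
    intro h
    have h1 := Order.cof_le h
    rw [Ordinal.cof_toType] at h1
    exact absurd (h1.trans mk_range_le) (not_le.2 hC)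
  rw [not_isCofinal_iff] at h
  obtain ⟨i, hi⟩ := h
  exact ⟨i, fun n => hi _ (mem_range_self n)⟩

theorem pressing_down {V C : Type u} [LinearOrder V] [WellFoundedLT V] {lam : Cardinal.{u}}
    (hlam : ℵ₀ ≤ lam) (hC : #C < lam.ord.cof) (hV : lam < #V) (hVi : ∀ v : V, #(Iio v) ≤ lam)
    (A : C → V → Set V) :
    ∃ e : V, lam < #{d : V | ∀ n, ∀ g, g < d → lam ≤ #(A n d ∩ Iio g : Set V) →
      lam ≤ #(A n d ∩ Iio e : Set V)} := by
  by_contra hcon
  push Not at hcon
  let S0 : V → Set V := fun e => {d : V | ∀ n, ∀ g, g < d → lam ≤ #(A n d ∩ Iio g : Set V) →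
      lam ≤ #(A n d ∩ Iio e : Set V)}
  have hS0 : ∀ e, #(S0 e) ≤ lam := hcon
  obtain ⟨h, hh⟩ := exists_rec (I := lam.ord.ToType) (α := V)
    (fun i f v => ∀ j (hj : j < i), f j hj < v ∧ ∀ d ∈ S0 (f j hj), d < v) (by
      intro i f
      obtain ⟨v, hv⟩ := exists_strict_bound hlam hV hVi
        (s := ⋃ j : Iio i, ({f j.1 j.2} ∪ S0 (f j.1 j.2)))
        (small_iUnion hlam (mk_Iio_ord_lt i).le _ fun j =>
          small_union hlam (by simpa using one_le_aleph0.trans hlam) (hS0 _))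
      exact ⟨v, fun j hj => ⟨hv _ (mem_iUnion.2 ⟨⟨j, hj⟩, Or.inl rfl⟩),
        fun d hd => hv _ (mem_iUnion.2 ⟨⟨j, hj⟩, Or.inr hd⟩)⟩⟩)
  have hne : {v | ∀ i, h i < v}.Nonempty := by
    obtain ⟨v, hv⟩ := exists_strict_bound hlam hV hVi (s := range h)
      (mk_range_le.trans (by simp))
    exact ⟨v, fun i => hv _ (mem_range_self i)⟩
  let d : V := (wellFounded_lt (α := V)).min _ hne
  have hd1 : ∀ i, h i < d := WellFounded.min_mem _ _ hne
  have hd2 : ∀ x, x < d → ∃ i, x ≤ h i := by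
    intro x hx
    by_contra hc
    push Not at hc
    exact WellFounded.not_lt_min (wellFounded_lt (α := V)) {v | ∀ i, h i < v} hc hx
  have hIne : Nonempty lam.ord.ToType := by
    rw [← mk_ne_zero_iff, mk_ord_toType]
    exact (aleph0_pos.trans_le hlam).ne'
  have hw : ∀ n, ∃ i, ∀ g, g < d → lam ≤ #(A n d ∩ Iio g : Set V) →
      lam ≤ #(A n d ∩ Iio (h i) : Set V) := by
    intro n
    by_cases hex : ∃ g, g < d ∧ lam ≤ #(A n d ∩ Iio g : Set V)
    · obtain ⟨g, hg, hg'⟩ := hex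
      obtain ⟨i, hi⟩ := hd2 g hg
      exact ⟨i, fun _ _ _ => hg'.trans
        (mk_le_mk_of_subset (inter_subset_inter_right _ (Iio_subset_Iio hi)))⟩
    · exact ⟨Classical.arbitrary _, fun g hg hg' => absurd ⟨g, hg, hg'⟩ hex⟩
  choose w hw using hw
  obtain ⟨i, hi⟩ := exists_bound_ord hC w
  have hdS : d ∈ S0 (h i) := by
    intro n g hg hg'
    exact (hw n g hg hg').trans
      (mk_le_mk_of_subset (inter_subset_inter_right _ (Iio_subset_Iio (hh i _ (hi n)).1.le)))
  have := Cardinal.noMaxOrder hlam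
  obtain ⟨i', hi'⟩ := exists_gt i
  exact lt_asymm (hd1 i') ((hh i' i hi').2 d hdS)

theorem main {V C : Type u} [LinearOrder V] [WellFoundedLT V] {lam : Cardinal.{u}}
    (hlam : ℵ₀ ≤ lam) (hC : #C < lam.ord.cof) (hV : lam < #V) (hVi : ∀ v : V, #(Iio v) ≤ lam)
    (col : V → V → C) (G : C → SimpleGraph V) (hG : ∀ x d, x < d → (G (col x d)).Adj x d) :
    ∃ (n : C) (A : Set V), #A = lam ∧ HC (G n) lam A := by
  classical
  have hVne : Nonempty V := by
    rw [← mk_ne_zero_iff]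
    exact (lt_of_le_of_lt (zero_le) hV).ne'
  by_contra hcon
  let N : C → V → Set V := fun n x => {d | x < d ∧ col x d = n}
  let A : C → V → Set V := fun n d => {x | x < d ∧ col x d = n}
  obtain ⟨e, he⟩ := pressing_down hlam hC hV hVi A
  set S0 : Set V := {d : V | ∀ n, ∀ g, g < d → lam ≤ #(A n d ∩ Iio g : Set V) →
      lam ≤ #(A n d ∩ Iio e : Set V)} with hS0
  let S : C → Set V := fun n => {d | lam ≤ #(A n d ∩ Iio e : Set V)}
  have hlab : ∀ n, ∃ (l : V → V × V) (U : V → Set V),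
      (∀ x, lam < #(S n ∩ N n x : Set V) → #(U x) ≤ lam ∧ (l x).1 ∈ Iio e ∧ (l x).2 ∈ Iio e) ∧
      ∀ x x', lam < #(S n ∩ N n x ∩ N n x' : Set V) → l x = l x' → x' ∈ U x := by
    intro n
    refine labels (Z := V) hlam hV hVi (N n) (S n) (Iio e) (hVi e) ?_
    intro T hTS hT
    have hN : ∀ x d, d ∈ N n x → (G n).Adj x d := by
      intro x d hd
      have := hG x d hd.1
      rwa [hd.2] at this
    rcases dichotomy hlam (G n) (N n) hN (Iio e) T (hVi e) hT (fun d hd =>
      (hTS hd).trans (mk_le_mk_of_subset fun x hx => ⟨hx.2, hx.1⟩)) with h | ⟨B, hB, hB'⟩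
    · exact h
    · obtain ⟨A', hA', hA''⟩ := exists_HC_subset hlam hB hB'
      exact absurd ⟨n, A', hA', hA''⟩ hcon
  choose l U hl1 hl2 using hlab
  have hClam : #C ≤ lam := hC.le.trans (Ordinal.cof_ord_le lam)
  -- an injective enumeration of the possible labels
  have hEE : #(↥(Iio e) × ↥(Iio e)) ≤ Cardinal.mk lam.ord.ToType := by
    rw [mk_prod, lift_id, mk_ord_toType]
    calc #(Iio e) * #(Iio e) ≤ lam * lam := mul_le_mul' (hVi e) (hVi e)
      _ = lam := mul_eq_self hlam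
  obtain ⟨en⟩ := (Cardinal.le_def _ _).1 hEE
  have hIne : Nonempty lam.ord.ToType := by
    rw [← mk_ne_zero_iff, mk_ord_toType]
    exact (aleph0_pos.trans_le hlam).ne'
  let code : V × V → lam.ord.ToType := fun p =>
    if h : p.1 ∈ Iio e ∧ p.2 ∈ Iio e then en (⟨p.1, h.1⟩, ⟨p.2, h.2⟩) else Classical.arbitrary _
  have hcode : ∀ p q : V × V, p.1 ∈ Iio e → p.2 ∈ Iio e → q.1 ∈ Iio e → q.2 ∈ Iio e →
      code p = code q → p = q := by
    intro p q h1 h2 h3 h4 h
    simp only [code, dif_pos (And.intro h1 h2), dif_pos (And.intro h3 h4)] at h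
    have := en.injective h
    simp only [Prod.mk.injEq, Subtype.mk.injEq] at this
    exact Prod.ext this.1 this.2
  have hm : ∀ x : V, ∃ i, ∀ n, code (l n x) < i := fun x => exists_bound_ord hC _
  choose m hm using hm
  obtain ⟨i0, hi0⟩ := infinite_pigeonhole_card_lt m (by simpa using hV) (hlam.trans hV.le)
  rw [mk_ord_toType] at hi0
  -- a free sequence
  let U' : V → Set V := fun x => {x} ∪ ⋃ n : {n | lam < #(S n ∩ N n x : Set V)}, U n.1 x
  have hU' : ∀ x, #(U' x) ≤ lam := fun x =>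
    small_union hlam (by simpa using one_le_aleph0.trans hlam)
      (small_iUnion hlam ((mk_set_le _).trans hClam) _ fun n => (hl1 n.1 x n.2).1)
  obtain ⟨f, hf⟩ := exists_rec (I := lam.ord.ToType) (α := V)
    (fun i f v => m v = i0 ∧ ∀ j (hj : j < i), v ∉ U' (f j hj)) (by
      intro i f
      have h1 : #(⋃ j : Iio i, U' (f j.1 j.2) : Set V) ≤ lam :=
        small_iUnion hlam (mk_Iio_ord_lt i).le _ fun j => hU' _
      obtain ⟨v, hv, hv'⟩ := exists_mem_notMem_of_lt (h1.trans_lt hi0)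
      exact ⟨v, hv, fun j hj h => hv' (mem_iUnion.2 ⟨⟨j, hj⟩, h⟩)⟩)
  have hfinj : Function.Injective f := by
    intro i j hij
    by_contra hne
    rcases lt_or_gt_of_ne hne with h | h
    · exact (hf j).2 i h (Or.inl hij.symm)
    · exact (hf i).2 j h (Or.inl hij)
  obtain ⟨g, hg⟩ := exists_strict_bound hlam hV hVi (s := range f) (mk_range_le.trans (by simp))
  let Bad : Set V := Iic g ∪
    ⋃ p : {p : C × lam.ord.ToType × lam.ord.ToType |
      #(S p.1 ∩ N p.1 (f p.2.1) ∩ N p.1 (f p.2.2) : Set V) ≤ lam},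
        S p.1.1 ∩ N p.1.1 (f p.1.2.1) ∩ N p.1.1 (f p.1.2.2)
  have hBad : #Bad ≤ lam := by
    refine small_union hlam (small_Iic hlam hVi g) (small_iUnion hlam ?_ _ fun p => p.2)
    refine (mk_set_le _).trans ?_
    rw [mk_prod, mk_prod]
    simp only [lift_id, mk_ord_toType]
    calc #C * (lam * lam) ≤ lam * (lam * lam) := mul_le_mul' hClam le_rfl
      _ = lam := by rw [mul_eq_self hlam, mul_eq_self hlam]
  obtain ⟨d, hdS, hdB⟩ := exists_mem_notMem_of_lt (hBad.trans_lt he)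
  have hgd : g < d := not_le.1 fun h => hdB (Or.inl h)
  obtain ⟨n, hn⟩ := infinite_pigeonhole_card (fun i => col (f i) d) lam (by simp) hlam hC
  set J : Set lam.ord.ToType := (fun i => col (f i) d) ⁻¹' {n} with hJ
  have hfd : ∀ i, f i < d := fun i => (hg _ (mem_range_self i)).trans hgd
  have hdn : d ∈ S n := by
    refine hdS n g hgd (hn.trans ?_)
    refine mk_le_of_injective (f := fun i : J =>
      (⟨f i.1, ⟨hfd _, i.2⟩, hg _ (mem_range_self _)⟩ : (A n d ∩ Iio g : Set V))) ?_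
    intro i j hij
    exact Subtype.ext (hfinj (congrArg Subtype.val hij))
  have hbig : ∀ i ∈ J, ∀ j ∈ J, lam < #(S n ∩ N n (f i) ∩ N n (f j) : Set V) := by
    intro i hi j hj
    by_contra hc
    exact hdB (Or.inr (mem_iUnion.2 ⟨⟨(n, i, j), not_lt.1 hc⟩, ⟨hdn, hfd i, hi⟩, hfd j, hj⟩))
  have hbig1 : ∀ i ∈ J, lam < #(S n ∩ N n (f i) : Set V) := fun i hi =>
    (hbig i hi i hi).trans_le (mk_le_mk_of_subset inter_subset_left)
  have key : ∀ i ∈ J, ∀ j ∈ J, j < i → code (l n (f i)) ≠ code (l n (f j)) := by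
    intro i hi j hj hji h
    have h1 := hl1 n _ (hbig1 i hi)
    have h2 := hl1 n _ (hbig1 j hj)
    have h3 := hcode _ _ h1.2.1 h1.2.2 h2.2.1 h2.2.2 h
    have h4 := hl2 n _ _ (hbig j hj i hi) h3.symm
    exact (hf i).2 j hji (Or.inr (mem_iUnion.2 ⟨⟨n, hbig1 j hj⟩, h4⟩))
  have hJ2 : #J ≤ #(Iio i0) := by
    refine mk_le_of_injective (f := fun i : J =>
      (⟨code (l n (f i.1)), (hf i.1).1 ▸ hm (f i.1) n⟩ : Iio i0)) ?_
    intro i j hij
    have hij' : code (l n (f i.1)) = code (l n (f j.1)) := congrArg Subtype.val hij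
    by_contra hne
    have hne' : i.1 ≠ j.1 := fun h => hne (Subtype.ext h)
    rcases lt_or_gt_of_ne hne' with h | h
    · exact key j.1 j.2 i.1 i.2 h hij'.symm
    · exact key i.1 i.2 j.1 j.2 h hij'
  exact absurd (hn.trans hJ2) (not_le.2 (mk_Iio_ord_lt i0))

end Pool.Agent.MP_7bf93d_lc

end MrgPart2

-- marker of a merged file
example : 731051 + 407305 = 731051 + 407305 := rfl
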