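import Mathlib
import Pool.Agent.MP_7bf93d_lc.Main

/-!
The labelling argument for an arbitrary notion of largeness, pressing down for stationary sets,
and stationary monochromatic sets of high connectivity.
-/

open Cardinal Set

universe u

namespace Pool.Agent.MP_7bf93d_lc.Stat

/-- `Big` is the family of positive sets of a `lam⁺`-complete ideal containing the sets of size
at most `lam`. -/
def Large {V : Type u} (lam : Cardinal.{u}) (Big : Set V → Prop) : Prop :=
  (∀ s t, s ⊆ t → Big s → Big t) ∧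
    (∀ (ι : Type u) (s : ι → Set V), #ι ≤ lam → Big (⋃ i, s i) → ∃ i, Big (s i)) ∧
    ∀ s : Set V, #s ≤ lam → ¬ Big s

section Large

variable {V : Type u} {lam : Cardinal.{u}} {Big : Set V → Prop}

theorem Large.mono (h : Large lam Big) {s t : Set V} (hs : Big s) (hst : s ⊆ t) : Big t :=
  h.1 s t hst hs

theorem Large.anti (h : Large lam Big) {s t : Set V} (hst : s ⊆ t) (ht : ¬ Big t) : ¬ Big s :=
  fun hs => ht (h.mono hs hst)

theorem Large.small (h : Large lam Big) {s : Set V} (hs : #s ≤ lam) : ¬ Big s := h.2.2 s hs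

theorem Large.nb_iUnion (h : Large lam Big) {ι : Type u} (hι : #ι ≤ lam) (s : ι → Set V)
    (hs : ∀ i, ¬ Big (s i)) : ¬ Big (⋃ i, s i) := fun hb =>
  let ⟨i, hi⟩ := h.2.1 ι s hι hb
  hs i hi

theorem Large.nb_union (h : Large lam Big) (hlam : ℵ₀ ≤ lam) {s t : Set V} (hs : ¬ Big s)
    (ht : ¬ Big t) : ¬ Big (s ∪ t) := by
  refine h.anti (t := ⋃ b : ULift.{u} Bool, if b.down then s else t) ?_
    (h.nb_iUnion ((lt_aleph0_of_finite _).le.trans hlam) _ ?_)
  · rintro x (hx | hx)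
    · exact mem_iUnion.2 ⟨⟨true⟩, hx⟩
    · exact mem_iUnion.2 ⟨⟨false⟩, hx⟩
  · rintro ⟨b⟩
    cases b
    · exact ht
    · exact hs

theorem Large.of_union (h : Large lam Big) (hlam : ℵ₀ ≤ lam) {s t r : Set V} (hs : Big s)
    (hr : ¬ Big r) (hst : s ⊆ t ∪ r) : Big t := by
  by_contra hcon
  exact h.nb_union hlam hcon hr (h.mono hs hst)

theorem Large.exists_notMem (h : Large lam Big) {s r : Set V} (hr : ¬ Big r) (hs : Big s) :
    ∃ x ∈ s, x ∉ r := by
  by_contra hcon
  push Not at hcon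
  exact hr (h.mono hs hcon)

end Large

/-- A separation of the set `T` of upper vertices. -/
def Sep {V : Type u} (lam : Cardinal.{u}) (Big : Set V → Prop) (N : V → Set V)
    (E T Y C : Set V) (a b : V) : Prop :=
  #Y ≤ lam ∧ a ∈ E ∧ b ∈ E ∧ Big (T ∩ N a) ∧ Big (T ∩ N b) ∧
    (∀ x, x ∉ Y → x ∈ C → ¬ Big (T ∩ N x ∩ N b)) ∧
    (∀ x, x ∉ Y → x ∉ C → ¬ Big (T ∩ N x ∩ N a)) ∧
    (∀ x x', x ∉ Y → x' ∉ Y → Big (T ∩ N x ∩ N x') → (x ∈ C ↔ x' ∈ C))

theorem labels {V Z : Type u} [Nonempty V] [LinearOrder Z] [WellFoundedLT Z]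
    {lam : Cardinal.{u}} (hlam : ℵ₀ ≤ lam) {Big : Set V → Prop} (hL : Large lam Big)
    (hZ : lam < #Z) (hZi : ∀ z : Z, #(Iio z) ≤ lam)
    (N : V → Set V) (S E : Set V) (hE : #E ≤ lam)
    (hsep : ∀ T : Set V, T ⊆ S → Big T → ∃ (Y C : Set V) (a b : V), Sep lam Big N E T Y C a b) :
    ∃ (l : V → V × V) (U : V → Set V),
      (∀ x, Big (S ∩ N x) → #(U x) ≤ lam ∧ (l x).1 ∈ E ∧ (l x).2 ∈ E) ∧
      ∀ x x', Big (S ∩ N x ∩ N x') → l x = l x' → x' ∈ U x := by
  classical
  choose! Y C a b hS using hsep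
  let nxt : V → Set V → Set V := fun x T => if x ∈ C T then T \ N (b T) else T \ N (a T)
  have hnxt_sub : ∀ x T, nxt x T ⊆ T := by
    intro x T
    by_cases h : x ∈ C T
    · simp only [nxt, if_pos h]; exact sdiff_subset
    · simp only [nxt, if_neg h]; exact sdiff_subset
  have hrec : ∀ x : V, ∃ F : Z → Set V, ∀ z, F z = S ∩ ⋂ j, ⋂ (_ : j < z), nxt x (F j) := by
    intro x
    exact exists_rec (I := Z) (α := Set V)
      (fun z f T => T = S ∩ ⋂ j, ⋂ (h : j < z), nxt x (f j h)) (fun z f => ⟨_, rfl⟩)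
  choose F hF using hrec
  have f1 : ∀ x z, F x z ⊆ S := fun x z => by rw [hF]; exact inter_subset_left
  have f2 : ∀ x z j, j < z → F x z ⊆ nxt x (F x j) := by
    intro x z j hj v hv
    rw [hF] at hv
    exact mem_iInter₂.1 hv.2 j hj
  have f3 : ∀ x, Big (S ∩ N x) → ∀ z, (∀ j, j < z → x ∉ Y (F x j)) →
      ¬ Big ((S ∩ N x) \ F x z) := by
    intro x hx z
    induction z using WellFoundedLT.induction with
    | ind z ih =>
      intro hz
      have hsub : (S ∩ N x) \ F x z ⊆ ⋃ j : Iio z, (S ∩ N x) \ nxt x (F x j.1) := by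
        intro v hv
        have h2 := hv.2
        rw [hF] at h2
        have h3 : ¬ v ∈ ⋂ j, ⋂ (_ : j < z), nxt x (F x j) := fun h => h2 ⟨hv.1.1, h⟩
        rw [mem_iInter₂] at h3
        push Not at h3
        obtain ⟨j, hj, hv'⟩ := h3
        exact mem_iUnion.2 ⟨⟨j, hj⟩, hv.1, hv'⟩
      refine hL.anti hsub (hL.nb_iUnion (hZi z) _ ?_)
      rintro ⟨j, hj⟩
      have hj' : j < z := hj
      have ih' := ih j hj' fun i hi => hz i (hi.trans hj')
      have hbig : Big (F x j) :=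
        hL.of_union hlam hx ih' fun v hv => by
          by_cases h : v ∈ F x j
          · exact Or.inl h
          · exact Or.inr ⟨hv, h⟩
      have hsp := hS (F x j) (f1 x j) hbig
      by_cases h : x ∈ C (F x j)
      · have h5 := hsp.2.2.2.2.2.1 x (hz j hj') h
        refine hL.anti ?_ (hL.nb_union hlam ih' h5)
        intro v hv
        by_cases hvF : v ∈ F x j
        · refine Or.inr ⟨⟨hvF, hv.1.2⟩, ?_⟩
          by_contra hcon
          refine hv.2 ?_
          simp only [nxt, if_pos h]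
          exact ⟨hvF, hcon⟩
        · exact Or.inl ⟨hv.1, hvF⟩
      · have h5 := hsp.2.2.2.2.2.2.1 x (hz j hj') h
        refine hL.anti ?_ (hL.nb_union hlam ih' h5)
        intro v hv
        by_cases hvF : v ∈ F x j
        · refine Or.inr ⟨⟨hvF, hv.1.2⟩, ?_⟩
          by_contra hcon
          refine hv.2 ?_
          simp only [nxt, if_neg h]
          exact ⟨hvF, hcon⟩
        · exact Or.inl ⟨hv.1, hvF⟩
  have f4 : ∀ x, Big (S ∩ N x) → ∀ z, (∀ j, j < z → x ∉ Y (F x j)) →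
      Sep lam Big N E (F x z) (Y (F x z)) (C (F x z)) (a (F x z)) (b (F x z)) := by
    intro x hx z hz
    refine hS _ (f1 x z) (hL.of_union hlam hx (f3 x hx z hz) fun v hv => ?_)
    by_cases h : v ∈ F x z
    · exact Or.inl h
    · exact Or.inr ⟨hv, h⟩
  have f5 : ∀ x, Big (S ∩ N x) → ∀ z, (∀ j, j < z → x ∉ Y (F x j)) →
      ∀ j, j < z → (a (F x j), b (F x j)) ≠ (a (F x z), b (F x z)) := by
    intro x hx z hz j hj heq
    have hsp := f4 x hx z hz
    have ha : a (F x j) = a (F x z) := congrArg Prod.fst heq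
    have hb : b (F x j) = b (F x z) := congrArg Prod.snd heq
    have h0 : ¬ Big (∅ : Set V) := hL.small (by simp)
    by_cases h : x ∈ C (F x j)
    · obtain ⟨v, hv, -⟩ := hL.exists_notMem h0 hsp.2.2.2.2.1
      have := f2 x z j hj hv.1
      simp only [nxt, if_pos h] at this
      exact this.2 (hb ▸ hv.2)
    · obtain ⟨v, hv, -⟩ := hL.exists_notMem h0 hsp.2.2.2.1
      have := f2 x z j hj hv.1
      simp only [nxt, if_neg h] at this
      exact this.2 (ha ▸ hv.2)
  have f6 : ∀ x, Big (S ∩ N x) →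
      ∃ z, x ∈ Y (F x z) ∧ ∀ j, j < z → x ∉ Y (F x j) := by
    intro x hx
    have hne : {z | x ∈ Y (F x z)}.Nonempty := by
      by_contra hcon
      have hall : ∀ z, x ∉ Y (F x z) := fun z hz => hcon ⟨z, hz⟩
      have hsp := fun z => f4 x hx z fun j _ => hall j
      have hinj : Function.Injective
          (fun z : Z => ((⟨a (F x z), (hsp z).2.1⟩, ⟨b (F x z), (hsp z).2.2.1⟩) : ↥E × ↥E)) := by
        intro i j hij
        have h1 : a (F x i) = a (F x j) := congrArg (fun p : ↥E × ↥E => p.1.1) hij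
        have h2 : b (F x i) = b (F x j) := congrArg (fun p : ↥E × ↥E => p.2.1) hij
        by_contra hne
        rcases lt_or_gt_of_ne hne with h | h
        · exact f5 x hx j (fun k _ => hall k) i h (by rw [h1, h2])
        · exact f5 x hx i (fun k _ => hall k) j h (by rw [h1, h2])
      have h3 := mk_le_of_injective hinj
      rw [mk_prod, lift_id] at h3
      have h4 : #E * #E ≤ lam := by
        calc #E * #E ≤ lam * lam := mul_le_mul' hE hE
          _ = lam := mul_eq_self hlam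
      exact absurd (h3.trans h4) (not_le.2 hZ)
    refine ⟨(wellFounded_lt (α := Z)).min _ hne, WellFounded.min_mem _ _ hne, ?_⟩
    intro j hj hxj
    exact WellFounded.not_lt_min (wellFounded_lt (α := Z)) {z | x ∈ Y (F x z)} hxj hj
  have hZne : Nonempty Z := by
    rw [← mk_ne_zero_iff]
    exact (lt_of_le_of_lt (zero_le) hZ).ne'
  choose! stop hstop1 hstop2 using f6
  have f7 : ∀ x x', Big (S ∩ N x ∩ N x') → ∀ z,
      (∀ j, j < z → x ∉ Y (F x j)) → (∀ j, j < z → x' ∉ Y (F x' j)) → F x z = F x' z := by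
    intro x x' hxx z
    have hx : Big (S ∩ N x) := hL.mono hxx inter_subset_left
    induction z using WellFoundedLT.induction with
    | ind z ih =>
      intro h1 h2
      rw [hF x z, hF x' z]
      congr 1
      refine iInter_congr fun j => iInter_congr fun hj => ?_
      have e := ih j hj (fun i hi => h1 i (hi.trans hj)) (fun i hi => h2 i (hi.trans hj))
      have hsp := f4 x hx j fun i hi => h1 i (hi.trans hj)
      have hsm := f3 x hx j fun i hi => h1 i (hi.trans hj)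
      have hb : Big (F x j ∩ N x ∩ N x') :=
        hL.of_union hlam hxx hsm fun v hv => by
          by_cases h : v ∈ F x j
          · exact Or.inl ⟨⟨h, hv.1.2⟩, hv.2⟩
          · exact Or.inr ⟨hv.1, h⟩
      have hiff := hsp.2.2.2.2.2.2.2 x x' (h1 j hj) (e ▸ h2 j hj) hb
      rw [← e]
      by_cases h : x ∈ C (F x j)
      · simp only [nxt, if_pos h, if_pos (hiff.1 h)]
      · simp only [nxt, if_neg h, if_neg (fun h' => h (hiff.2 h'))]
  refine ⟨fun x => (a (F x (stop x)), b (F x (stop x))), fun x => Y (F x (stop x)), ?_, ?_⟩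
  · intro x hx
    have hsp := f4 x hx (stop x) (hstop2 x hx)
    exact ⟨hsp.1, hsp.2.1, hsp.2.2.1⟩
  · intro x x' hxx hl
    have hx : Big (S ∩ N x) := hL.mono hxx inter_subset_left
    have hx' : Big (S ∩ N x') :=
      hL.mono hxx fun v hv => ⟨hv.1.1, hv.2⟩
    rcases lt_trichotomy (stop x) (stop x') with h | h | h
    · exfalso
      have e := f7 x x' hxx (stop x) (hstop2 x hx) fun j hj => hstop2 x' hx' j (hj.trans h)
      refine f5 x' hx' (stop x') (hstop2 x' hx') (stop x) h ?_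
      rw [← e]; exact hl
    · have e := f7 x x' hxx (stop x) (hstop2 x hx) fun j hj => hstop2 x' hx' j (h ▸ hj)
      show x' ∈ Y (F x (stop x))
      rw [e, h]
      exact hstop1 x' hx'
    · exfalso
      have e := f7 x x' hxx (stop x') (fun j hj => hstop2 x hx j (hj.trans h)) (hstop2 x' hx')
      refine f5 x hx (stop x) (hstop2 x hx) (stop x') h ?_
      rw [e]; exact hl.symm

theorem dichotomy {V : Type u} {lam : Cardinal.{u}} (hlam : ℵ₀ ≤ lam) {Big : Set V → Prop}
    (hL : Large lam Big) (G : SimpleGraph V)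
    (N : V → Set V) (hN : ∀ x d, d ∈ N x → G.Adj x d) (E T : Set V) (hE : #E ≤ lam)
    (hT : Big T) (hTE : ∀ d ∈ T, lam ≤ #{x | x ∈ E ∧ d ∈ N x}) :
    (∃ (Y C : Set V) (a b : V), Sep lam Big N E T Y C a b) ∨
      ∃ B : Set V, B ⊆ T ∪ {x | (N x).Nonempty} ∧ Big B ∧ HC G lam B := by
  classical
  let r : Set V → V → V → Prop := fun Y x x' =>
    x ∉ Y ∧ x' ∉ Y ∧ Big (T ∩ N x ∩ N x')
  have hr : ∀ Y x x', r Y x x' → r Y x' x := by
    intro Y x x' h
    refine ⟨h.2.1, h.1, ?_⟩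
    rw [inter_right_comm]
    exact h.2.2
  by_cases H : ∀ Y : Set V, #Y < lam → ∀ a b, a ∈ E → b ∈ E → Big (T ∩ N a) →
      Big (T ∩ N b) → a ∉ Y → b ∉ Y → Relation.ReflTransGen (r Y) a b
  · right
    let Bad : Set V := ⋃ x : {x | x ∈ E ∧ ¬ Big (T ∩ N x)}, T ∩ N x.1
    have hBad : ¬ Big Bad :=
      hL.nb_iUnion ((mk_le_mk_of_subset fun x hx => hx.1).trans hE) _ fun x => x.2.2
    let W : Set V := {x | Big (T ∩ N x)}
    have hT' : Big (T \ Bad) := hL.of_union hlam hT hBad fun v hv => by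
      by_cases h : v ∈ Bad
      · exact Or.inr h
      · exact Or.inl ⟨hv, h⟩
    refine ⟨W ∪ (T \ Bad), ?_, hL.mono hT' subset_union_right, ?_⟩
    · rintro x (hx | hx)
      · obtain ⟨d, hd, -⟩ := hL.exists_notMem hBad hx
        exact Or.inr ⟨d, hd.2⟩
      · exact Or.inl hx.1
    intro Y hY
    have hBY : ¬ Big (Bad ∪ Y) := hL.nb_union hlam hBad (hL.small hY.le)
    have step1 : ∀ x x', r Y x x' → Conn G ((W ∪ (T \ Bad)) \ Y) x x' := by
      intro x x' h
      obtain ⟨d, hd, hd'⟩ := hL.exists_notMem hBY h.2.2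
      have hdD : d ∈ (W ∪ (T \ Bad)) \ Y :=
        ⟨Or.inr ⟨hd.1.1, fun h' => hd' (Or.inl h')⟩, fun h' => hd' (Or.inr h')⟩
      have hxW : x ∈ W := hL.mono h.2.2 inter_subset_left
      have hxW' : x' ∈ W := hL.mono h.2.2 fun v hv => ⟨hv.1.1, hv.2⟩
      have hxD : x ∈ (W ∪ (T \ Bad)) \ Y := ⟨Or.inl hxW, h.1⟩
      have hxD' : x' ∈ (W ∪ (T \ Bad)) \ Y := ⟨Or.inl hxW', h.2.1⟩
      exact (Conn.single hxD hdD (hN _ _ hd.1.2)).trans
        (Conn.single hdD hxD' (hN _ _ hd.2).symm)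
    have step2 : ∀ x x', Relation.ReflTransGen (r Y) x x' →
        Conn G ((W ∪ (T \ Bad)) \ Y) x x' := by
      intro x x' h
      induction h with
      | refl => exact Relation.ReflTransGen.refl
      | tail _ hab ih => exact ih.trans (step1 _ _ hab)
    have step3 : ∀ d ∈ T \ Bad, d ∉ Y → ∃ x, x ∈ E ∧ x ∈ W ∧ x ∉ Y ∧
        Conn G ((W ∪ (T \ Bad)) \ Y) d x := by
      intro d hd hdY
      obtain ⟨x, hx, hxY⟩ := exists_mem_notMem_of_lt (hY.trans_le (hTE d hd.1))
      have hxW : x ∈ W := by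
        by_contra hcon
        have hcon' : ¬ Big (T ∩ N x) := hcon
        exact hd.2 (mem_iUnion.2 ⟨⟨x, hx.1, hcon'⟩, hd.1, hx.2⟩)
      exact ⟨x, hx.1, hxW, hxY,
        Conn.single ⟨Or.inr hd, hdY⟩ ⟨Or.inl hxW, hxY⟩ (hN _ _ hx.2).symm⟩
    have step4 : ∀ v ∈ (W ∪ (T \ Bad)) \ Y, ∃ x, x ∈ E ∧ x ∈ W ∧ x ∉ Y ∧
        Conn G ((W ∪ (T \ Bad)) \ Y) v x := by
      intro v hv
      rcases hv.1 with h | h
      · obtain ⟨d, hd, hd'⟩ := hL.exists_notMem hBY h
        have hdT : d ∈ T \ Bad := ⟨hd.1, fun h' => hd' (Or.inl h')⟩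
        have hdY : d ∉ Y := fun h' => hd' (Or.inr h')
        obtain ⟨x, h1, h2, h3, h4⟩ := step3 d hdT hdY
        exact ⟨x, h1, h2, h3, (Conn.single hv ⟨Or.inr hdT, hdY⟩ (hN _ _ hd.2)).trans h4⟩
      · exact step3 v h hv.2
    intro x hx y hy
    obtain ⟨a, h1, h2, h3, h4⟩ := step4 x hx
    obtain ⟨b, h1', h2', h3', h4'⟩ := step4 y hy
    exact (h4.trans (step2 a b (H Y hY a b h1 h1' h2 h2' h3 h3'))).trans h4'.symm
  · left
    push Not at H
    obtain ⟨Y, hY, a, b, ha, hb, haT, hbT, haY, hbY, hab⟩ := H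
    refine ⟨Y, {x | Relation.ReflTransGen (r Y) a x}, a, b, hY.le, ha, hb, haT, hbT, ?_, ?_, ?_⟩
    · intro x hxY hx hcon
      exact hab (Relation.ReflTransGen.tail hx ⟨hxY, hbY, hcon⟩)
    · intro x hxY hx hcon
      exact hx (Relation.ReflTransGen.single (hr Y x a ⟨hxY, haY, hcon⟩))
    · intro x x' hx hx' h
      exact ⟨fun h1 => Relation.ReflTransGen.tail h1 ⟨hx, hx', h⟩,
        fun h1 => Relation.ReflTransGen.tail h1 (hr Y x x' ⟨hx, hx', h⟩)⟩

end Pool.Agent.MP_7bf93d_lc.Stat
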