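import Pool.Agent.MP_7bf93d_lc.StatA

/-!
Pressing down for stationary sets and the final counting argument.
-/

open Cardinal Set

universe u

namespace Pool.Agent.MP_7bf93d_lc.Stat

section Order

variable {V : Type u} [LinearOrder V] {lam : Cardinal.{u}}

theorem lt_cof (hlam : ℵ₀ ≤ lam) (hV : lam < #V) (hVi : ∀ v : V, #(Iio v) ≤ lam) :
    lam < Order.cof V := by
  obtain ⟨s, hs, hs'⟩ := Order.exists_cof_eq V
  by_contra h
  push Not at h
  obtain ⟨v, hv⟩ := exists_strict_bound hlam hV hVi (s := s) (hs' ▸ h)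
  obtain ⟨x, hx, hvx⟩ := hs v
  exact absurd (hv x hx) (not_lt.2 hvx)

theorem isClub_Ici (v : V) : IsClub (Ici v) :=
  ⟨fun _ hd ⟨_, hx⟩ _ _ ha => (hd hx).trans (ha.1 hx),
    fun a => ⟨max a v, le_max_right _ _, le_max_left _ _⟩⟩

variable [WellFoundedLT V]

theorem exists_lub (hlam : ℵ₀ ≤ lam) (hV : lam < #V) (hVi : ∀ v : V, #(Iio v) ≤ lam)
    {s : Set V} (hs : #s ≤ lam) : ∃ d, IsLUB s d := by
  obtain ⟨v, hv⟩ := exists_strict_bound hlam hV hVi hs
  have hne : (upperBounds s).Nonempty := ⟨v, fun x hx => (hv x hx).le⟩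
  exact ⟨(wellFounded_lt (α := V)).min _ hne, WellFounded.min_mem _ _ hne,
    fun b hb => not_lt.1 (WellFounded.not_lt_min (wellFounded_lt (α := V)) _ hb)⟩

theorem large_stat (hlam : ℵ₀ ≤ lam) (hV : lam < #V) (hVi : ∀ v : V, #(Iio v) ≤ lam) :
    Large lam (IsStationary : Set V → Prop) := by
  have hc := lt_cof hlam hV hVi
  refine ⟨fun s t hst hs => hs.mono hst, fun ι s hι hs => ?_, fun s hs hst => ?_⟩
  · exact (isStationary_iUnion_iff (hlam.trans_lt hc).ne' (by simpa using hι.trans_lt hc)).1 hs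
  · obtain ⟨v, hv⟩ := exists_strict_bound hlam hV hVi hs
    obtain ⟨x, hx, hxv⟩ := hst (isClub_Ici v)
    exact absurd (hv x hx) (not_lt.2 hxv)

theorem fodor (hlam : ℵ₀ ≤ lam) (hV : lam < #V) (hVi : ∀ v : V, #(Iio v) ≤ lam)
    {S : Set V} (hS : IsStationary S) (f : V → V) (hf : ∀ d ∈ S, f d < d) :
    ∃ e, IsStationary {d | d ∈ S ∧ f d = e} := by
  have hc := lt_cof hlam hV hVi
  by_contra hcon
  push Not at hcon
  simp only [not_isStationary_iff] at hcon
  choose K hK hKd using hcon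
  have hD : IsClub {d | ∀ e, e < d → d ∈ K e} := by
    refine ⟨fun t ht _ _ a ha e hea => ?_, fun a => ?_⟩
    · obtain ⟨x, hx, hex⟩ := (lt_isLUB_iff ha).1 hea
      refine (hK e).isLUB_mem (t := {y | y ∈ t ∧ e < y}) (fun y hy => ht hy.1 e hy.2)
        ⟨x, hx, hex⟩ ⟨fun y hy => ha.1 hy.1, fun b hb => ha.2 fun y hy => ?_⟩
      rcases le_or_gt y e with h | h
      · exact h.trans (hex.le.trans (hb ⟨hx, hex⟩))
      · exact hb ⟨hy, h⟩
    · have h1 : ∀ v : V, ∃ w, v ≤ w ∧ ∀ e, e ≤ v → w ∈ K e := by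
        intro v
        have h2 : IsClub (⋂ e : Iic v, K e.1) := IsClub.iInter (hlam.trans_lt hc).ne'
          (by simpa using (small_Iic hlam hVi v).trans_lt hc) fun e => hK e.1
        obtain ⟨w, hw, hvw⟩ := h2.isCofinal v
        exact ⟨w, hvw, fun e he => mem_iInter.1 hw ⟨e, he⟩⟩
      choose nx hn1 hn2 using h1
      let g : ℕ → V := fun k => Nat.rec a (fun _ v => nx v) k
      have hg : Monotone g := monotone_nat_of_le_succ fun k => hn1 (g k)
      obtain ⟨d, hd⟩ := exists_lub hlam hV hVi (s := range g)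
        ((countable_range g).le_aleph0.trans hlam)
      refine ⟨d, fun e hed => ?_, hd.1 ⟨0, rfl⟩⟩
      obtain ⟨_, ⟨k, rfl⟩, hk⟩ := (lt_isLUB_iff hd).1 hed
      refine (hK e).isLUB_mem (t := range fun j => g (j + k + 1)) ?_ (range_nonempty _)
        ⟨?_, fun b hb => hd.2 ?_⟩
      · rintro _ ⟨j, rfl⟩
        exact hn2 (g (j + k)) e (hk.le.trans (hg (Nat.le_add_left k j)))
      · rintro _ ⟨j, rfl⟩
        exact hd.1 ⟨j + k + 1, rfl⟩
      · rintro _ ⟨j, rfl⟩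
        exact (hg (by omega : j ≤ j + k + 1)).trans (hb ⟨j, rfl⟩)
  obtain ⟨d, hdS, hdD⟩ := hS hD
  exact disjoint_left.1 (hKd (f d)) ⟨hdS, rfl⟩ (hdD _ (hf d hdS))

theorem pressing_stat {C : Type u} (hlam : ℵ₀ ≤ lam) (hV : lam < #V)
    (hVi : ∀ v : V, #(Iio v) ≤ lam) {S : Set V} (hS : IsStationary S)
    (hcof : ∀ d ∈ S, #C < Order.cof (Iio d)) (A : C → V → Set V) :
    ∃ e : V, IsStationary {d : V | d ∈ S ∧ ∀ n, ∀ g, g < d → lam ≤ #(A n d ∩ Iio g : Set V) →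
      lam ≤ #(A n d ∩ Iio e : Set V)} := by
  have h1 : ∀ d ∈ S, ∃ e, e < d ∧ ∀ n, ∀ g, g < d → lam ≤ #(A n d ∩ Iio g : Set V) →
      lam ≤ #(A n d ∩ Iio e : Set V) := by
    intro d hd
    have h2 : ∀ n : {n : C // ∃ g, g < d ∧ lam ≤ #(A n d ∩ Iio g : Set V)},
        ∃ g : Iio d, lam ≤ #(A n.1 d ∩ Iio g.1 : Set V) := by
      rintro ⟨n, g, hg, hg'⟩
      exact ⟨⟨g, hg⟩, hg'⟩
    choose w hw using h2
    have h3 : ¬ IsCofinal (range w) := fun h =>
      absurd ((Order.cof_le h).trans (mk_range_le.trans (mk_subtype_le _))) (not_le.2 (hcof d hd))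
    obtain ⟨e, he⟩ := not_isCofinal_iff.1 h3
    refine ⟨e.1, e.2, fun n g hg hg' => (hw ⟨n, g, hg, hg'⟩).trans
      (mk_le_mk_of_subset (inter_subset_inter_right _ (Iio_subset_Iio ?_)))⟩
    exact (he _ (mem_range_self _)).le
  choose! f hf1 hf2 using h1
  obtain ⟨e, he⟩ := fodor hlam hV hVi hS f hf1
  exact ⟨e, he.mono fun d hd => ⟨hd.1, hd.2 ▸ hf2 d hd.1⟩⟩

theorem stat_cof {th : Cardinal.{u}} (hlam : ℵ₀ ≤ lam) (hth : th < lam.ord.cof) (hV : lam < #V)
    (hVi : ∀ v : V, #(Iio v) ≤ lam) : IsStationary {d : V | th < Order.cof (Iio d)} := by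
  intro K hK
  obtain ⟨h, hh⟩ := exists_rec (I := lam.ord.ToType) (α := V)
    (fun i f v => v ∈ K ∧ ∀ j (hj : j < i), f j hj < v) (by
      intro i f
      obtain ⟨v, hv⟩ := exists_strict_bound hlam hV hVi
        (s := range fun j : Iio i => f j.1 j.2) (mk_range_le.trans (mk_Iio_ord_lt i).le)
      obtain ⟨w, hw, hvw⟩ := hK.isCofinal v
      exact ⟨w, hw, fun j hj => (hv _ ⟨⟨j, hj⟩, rfl⟩).trans_le hvw⟩)
  obtain ⟨d, hd⟩ := exists_lub hlam hV hVi (s := range h) (mk_range_le.trans (by simp))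
  have hIne : Nonempty lam.ord.ToType := by
    rw [← mk_ne_zero_iff, mk_ord_toType]
    exact (aleph0_pos.trans_le hlam).ne'
  have := Cardinal.noMaxOrder hlam
  have hlt : ∀ i, h i < d := fun i => by
    obtain ⟨j, hj⟩ := exists_gt i
    exact ((hh j).2 i hj).trans_le (hd.1 ⟨j, rfl⟩)
  refine ⟨d, ?_, hK.isLUB_mem (by rintro _ ⟨i, rfl⟩; exact (hh i).1) (range_nonempty _) hd⟩
  have hm : StrictMono fun i => (⟨h i, hlt i⟩ : Iio d) := fun i j hij => (hh j).2 i hij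
  have hcf : IsCofinal (range fun i => (⟨h i, hlt i⟩ : Iio d)) := by
    rintro ⟨x, hx⟩
    obtain ⟨_, ⟨i, rfl⟩, hi⟩ := (lt_isLUB_iff hd).1 hx
    exact ⟨_, ⟨i, rfl⟩, hi.le⟩
  have := Order.cof_congr_of_strictMono hm hcf
  show th < Order.cof (Iio d)
  rw [← this, Ordinal.cof_toType]
  exact hth

end Order

theorem main_stat {V C : Type u} [LinearOrder V] [WellFoundedLT V] {lam : Cardinal.{u}}
    (hlam : ℵ₀ ≤ lam) (hC : #C < lam.ord.cof) (hV : lam < #V) (hVi : ∀ v : V, #(Iio v) ≤ lam)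
    {S₀ : Set V} (hS₀ : IsStationary S₀) (hcof : ∀ d ∈ S₀, #C < Order.cof (Iio d))
    (col : V → V → C) (G : C → SimpleGraph V) (hG : ∀ x d, x < d → (G (col x d)).Adj x d) :
    ∃ (n : C) (B : Set V), B ⊆ S₀ ∧ IsStationary B ∧ HC (G n) lam B := by
  classical
  have hVne : Nonempty V := by
    rw [← mk_ne_zero_iff]
    exact (lt_of_le_of_lt (zero_le) hV).ne'
  have hL := large_stat hlam hV hVi
  by_contra hcon
  let N : C → V → Set V := fun n x => {d | (x < d ∧ col x d = n) ∧ x ∈ S₀}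
  let A : C → V → Set V := fun n d => {x | (x < d ∧ col x d = n) ∧ x ∈ S₀}
  obtain ⟨e, he⟩ := pressing_stat hlam hV hVi hS₀ hcof A
  let S : C → Set V := fun n => {d | lam ≤ #(A n d ∩ Iio e : Set V) ∧ d ∈ S₀}
  have hlab : ∀ n, ∃ (l : V → V × V) (U : V → Set V),
      (∀ x, IsStationary (S n ∩ N n x) → #(U x) ≤ lam ∧ (l x).1 ∈ Iio e ∧ (l x).2 ∈ Iio e) ∧
      ∀ x x', IsStationary (S n ∩ N n x ∩ N n x') → l x = l x' → x' ∈ U x := by
    intro n
    refine labels (Z := V) hlam hL hV hVi (N n) (S n) (Iio e) (hVi e) ?_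
    intro T hTS hT
    have hN : ∀ x d, d ∈ N n x → (G n).Adj x d := by
      intro x d hd
      have := hG x d hd.1.1
      rwa [hd.1.2] at this
    rcases dichotomy hlam hL (G n) (N n) hN (Iio e) T (hVi e) hT (fun d hd =>
      (hTS hd).1.trans (mk_le_mk_of_subset fun x hx => ⟨hx.2, hx.1⟩)) with h | ⟨B, hB, hB', hB''⟩
    · exact h
    · refine absurd ⟨n, B, fun x hx => ?_, hB', hB''⟩ hcon
      rcases hB hx with h | ⟨d, hd⟩
      · exact (hTS h).2
      · exact hd.2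
  choose l U hl1 hl2 using hlab
  have hClam : #C ≤ lam := hC.le.trans (Ordinal.cof_ord_le lam)
  -- an injective enumeration of the possible labels
  have hEE : #(↥(Iio e) × ↥(Iio e)) ≤ Cardinal.mk lam.ord.ToType := by
    rw [mk_prod, lift_id, mk_ord_toType]
    calc #(Iio e) * #(Iio e) ≤ lam * lam := mul_le_mul' (hVi e) (hVi e)
      _ = lam := mul_eq_self hlam
  obtain ⟨en⟩ := (Cardinal.le_def _ _).1 hEE
  have hIne : Nonempty lam.ord.ToType := by
    rw [← mk_ne_zero_iff, mk_ord_toType]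
    exact (aleph0_pos.trans_le hlam).ne'
  let code : V × V → lam.ord.ToType := fun p =>
    if h : p.1 ∈ Iio e ∧ p.2 ∈ Iio e then en (⟨p.1, h.1⟩, ⟨p.2, h.2⟩) else Classical.arbitrary _
  have hcode : ∀ p q : V × V, p.1 ∈ Iio e → p.2 ∈ Iio e → q.1 ∈ Iio e → q.2 ∈ Iio e →
      code p = code q → p = q := by
    intro p q h1 h2 h3 h4 h
    simp only [code, dif_pos (And.intro h1 h2), dif_pos (And.intro h3 h4)] at h
    have := en.injective h
    simp only [Prod.mk.injEq, Subtype.mk.injEq] at this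
    exact Prod.ext this.1 this.2
  have hm : ∀ x : V, ∃ i, ∀ n, code (l n x) < i := fun x => exists_bound_ord hC _
  choose m hm using hm
  have hS₀l : lam < #S₀ := not_le.1 fun h => hL.small h hS₀
  obtain ⟨i0, hi0'⟩ := infinite_pigeonhole_card_lt (fun x : S₀ => m x.1) (by simpa using hS₀l)
    (hlam.trans hS₀l.le)
  rw [mk_ord_toType] at hi0'
  have hi0 : lam < #{x | m x = i0 ∧ x ∈ S₀} := hi0'.trans_le
    (mk_le_of_injective (f := fun x : (fun x : S₀ => m x.1) ⁻¹' {i0} =>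
      (⟨x.1.1, x.2, x.1.2⟩ : {x | m x = i0 ∧ x ∈ S₀}))
      fun x y h => Subtype.ext (Subtype.ext (Subtype.mk.inj h)))
  -- a free sequence
  let U' : V → Set V := fun x => {x} ∪ ⋃ n : {n | IsStationary (S n ∩ N n x)}, U n.1 x
  have hU' : ∀ x, #(U' x) ≤ lam := fun x =>
    small_union hlam (by simpa using one_le_aleph0.trans hlam)
      (small_iUnion hlam ((mk_set_le _).trans hClam) _ fun n => (hl1 n.1 x n.2).1)
  obtain ⟨f, hf⟩ := exists_rec (I := lam.ord.ToType) (α := V)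
    (fun i f v => (m v = i0 ∧ v ∈ S₀) ∧ ∀ j (hj : j < i), v ∉ U' (f j hj)) (by
      intro i f
      have h1 : #(⋃ j : Iio i, U' (f j.1 j.2) : Set V) ≤ lam :=
        small_iUnion hlam (mk_Iio_ord_lt i).le _ fun j => hU' _
      obtain ⟨v, hv, hv'⟩ := exists_mem_notMem_of_lt (h1.trans_lt hi0)
      exact ⟨v, hv, fun j hj h => hv' (mem_iUnion.2 ⟨⟨j, hj⟩, h⟩)⟩)
  have hfinj : Function.Injective f := by
    intro i j hij
    by_contra hne
    rcases lt_or_gt_of_ne hne with h | h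
    · exact (hf j).2 i h (Or.inl hij.symm)
    · exact (hf i).2 j h (Or.inl hij)
  obtain ⟨g, hg⟩ := exists_strict_bound hlam hV hVi (s := range f) (mk_range_le.trans (by simp))
  let Bad : Set V := Iic g ∪
    ⋃ p : {p : C × lam.ord.ToType × lam.ord.ToType |
      ¬ IsStationary (S p.1 ∩ N p.1 (f p.2.1) ∩ N p.1 (f p.2.2))},
        S p.1.1 ∩ N p.1.1 (f p.1.2.1) ∩ N p.1.1 (f p.1.2.2)
  have hBad : ¬ IsStationary Bad := by
    refine hL.nb_union hlam (hL.small (small_Iic hlam hVi g)) (hL.nb_iUnion ?_ _ fun p => p.2)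
    refine (mk_set_le _).trans ?_
    rw [mk_prod, mk_prod]
    simp only [lift_id, mk_ord_toType]
    calc #C * (lam * lam) ≤ lam * (lam * lam) := mul_le_mul' hClam le_rfl
      _ = lam := by rw [mul_eq_self hlam, mul_eq_self hlam]
  obtain ⟨d, hdS, hdB⟩ := hL.exists_notMem hBad he
  have hgd : g < d := not_le.1 fun h => hdB (Or.inl h)
  obtain ⟨n, hn⟩ := infinite_pigeonhole_card (fun i => col (f i) d) lam (by simp) hlam hC
  set J : Set lam.ord.ToType := (fun i => col (f i) d) ⁻¹' {n} with hJ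
  have hfd : ∀ i, f i < d := fun i => (hg _ (mem_range_self i)).trans hgd
  have hdn : d ∈ S n := by
    refine ⟨hdS.2 n g hgd (hn.trans ?_), hdS.1⟩
    refine mk_le_of_injective (f := fun i : J =>
      (⟨f i.1, ⟨⟨hfd _, i.2⟩, (hf i.1).1.2⟩, hg _ (mem_range_self _)⟩ :
        (A n d ∩ Iio g : Set V))) ?_
    intro i j hij
    exact Subtype.ext (hfinj (congrArg Subtype.val hij))
  have hbig : ∀ i ∈ J, ∀ j ∈ J, IsStationary (S n ∩ N n (f i) ∩ N n (f j)) := by
    intro i hi j hj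
    by_contra hc
    exact hdB (Or.inr (mem_iUnion.2 ⟨⟨(n, i, j), hc⟩, ⟨hdn, ⟨hfd i, hi⟩, (hf i).1.2⟩,
      ⟨hfd j, hj⟩, (hf j).1.2⟩))
  have hbig1 : ∀ i ∈ J, IsStationary (S n ∩ N n (f i)) := fun i hi =>
    (hbig i hi i hi).mono inter_subset_left
  have key : ∀ i ∈ J, ∀ j ∈ J, j < i → code (l n (f i)) ≠ code (l n (f j)) := by
    intro i hi j hj hji h
    have h1 := hl1 n _ (hbig1 i hi)
    have h2 := hl1 n _ (hbig1 j hj)
    have h3 := hcode _ _ h1.2.1 h1.2.2 h2.2.1 h2.2.2 h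
    have h4 := hl2 n _ _ (hbig j hj i hi) h3.symm
    exact (hf i).2 j hji (Or.inr (mem_iUnion.2 ⟨⟨n, hbig1 j hj⟩, h4⟩))
  have hJ2 : #J ≤ #(Iio i0) := by
    refine mk_le_of_injective (f := fun i : J =>
      (⟨code (l n (f i.1)), (hf i.1).1.1 ▸ hm (f i.1) n⟩ : Iio i0)) ?_
    intro i j hij
    have hij' : code (l n (f i.1)) = code (l n (f j.1)) := congrArg Subtype.val hij
    by_contra hne
    have hne' : i.1 ≠ j.1 := fun h => hne (Subtype.ext h)
    rcases lt_or_gt_of_ne hne' with h | h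
    · exact key j.1 j.2 i.1 i.2 h hij'.symm
    · exact key i.1 i.2 j.1 j.2 h hij'
  exact absurd (hn.trans hJ2) (not_le.2 (mk_Iio_ord_lt i0))

end Pool.Agent.MP_7bf93d_lc.Stat
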