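import Pool.Agent.MP_7bf93d_lc.StatB

/-!
Translation between the path form `HC` and connectedness of induced subgraphs.
-/

open Cardinal Set

universe u

namespace Pool.Agent.MP_7bf93d_lc.Stat

theorem connected_of_HC {V : Type u} {G : SimpleGraph V} {lam : Cardinal.{u}} {A : Set V}
    (hA : lam ≤ #A) (hHC : HC G lam A) (Y : Set A) (hY : #Y < lam) :
    ((G.induce A).induce Yᶜ).Connected := by
  have hY' : #(Subtype.val '' Y : Set V) < lam := mk_image_le.trans_lt hY
  have hne : (Yᶜ : Set A).Nonempty := by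
    by_contra hcon
    rw [Set.not_nonempty_iff_eq_empty, Set.compl_empty_iff] at hcon
    rw [hcon, mk_univ] at hY
    exact absurd hA (not_le.2 hY)
  refine connected_induce hne fun x hx y hy => ?_
  have hmem : ∀ v : A, v ∈ Yᶜ → v.1 ∈ A \ (Subtype.val '' Y) := by
    rintro v hv
    refine ⟨v.2, ?_⟩
    rintro ⟨w, hw, hwv⟩
    exact hv (Subtype.ext hwv ▸ hw)
  have key : ∀ a b : V, Conn G (A \ (Subtype.val '' Y)) a b →
      ∀ (ha : a ∈ A) (hb : b ∈ A), Conn (G.induce A) Yᶜ ⟨a, ha⟩ ⟨b, hb⟩ := by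
    intro a b h
    unfold Conn at h
    induction h with
    | refl => intro ha hb; exact Relation.ReflTransGen.refl
    | @tail p q _ hpq ih =>
      intro ha hb
      refine (ih ha hpq.1.1).trans (Conn.single ?_ ?_ hpq.2.2)
      · exact fun h => hpq.1.2 ⟨_, h, rfl⟩
      · exact fun h => hpq.2.1.2 ⟨_, h, rfl⟩
  exact key x.1 y.1 (hHC _ hY' _ (hmem x hx) _ (hmem y hy)) x.2 y.2

theorem HC_of_connected {V : Type u} {G : SimpleGraph V} {lam : Cardinal.{u}} {A : Set V}
    (h : ∀ Y : Set A, #Y < lam → ((G.induce A).induce Yᶜ).Connected) : HC G lam A := by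
  intro Y hY x hx y hy
  have hY' : #(Subtype.val ⁻¹' Y : Set A) < lam :=
    (mk_preimage_of_injective _ _ Subtype.val_injective).trans_lt hY
  have key : ∀ a b : ↥((Subtype.val ⁻¹' Y : Set A)ᶜ),
      ((G.induce A).induce (Subtype.val ⁻¹' Y : Set A)ᶜ).Reachable a b →
        Conn G (A \ Y) a.1.1 b.1.1 := by
    intro a b hab
    rw [SimpleGraph.reachable_iff_reflTransGen] at hab
    induction hab with
    | refl => exact Relation.ReflTransGen.refl
    | @tail p q _ hpq ih => exact ih.trans (Conn.single ⟨p.1.2, p.2⟩ ⟨q.1.2, q.2⟩ hpq)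
  exact key ⟨⟨x, hx.1⟩, hx.2⟩ ⟨⟨y, hy.1⟩, hy.2⟩ ((h _ hY').preconnected _ _)

end Pool.Agent.MP_7bf93d_lc.Stat
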